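import Pool.Agent.Helper69.AA.Defs

/-! # Families of curves with common poles: interfaces -/

open MvPolynomial

namespace Pool.Agent.Helper11.AB
open Pool.Agent.Helper11.ZP Pool.Agent.Helper20.DL Pool.Agent.Helper69.DL Pool.Agent.Helper36.DL
  Pool.Agent.Helper69.AA

variable {σ : Type} {n : ℕ}

/-- the generic point `(ss, zs)` of a family of curves; common poles are allowed -/
structure FamilyNZ (ss : σ → ℂ) (zs : Fin n → ℂ) : Prop where
  /-- the parameters are independent -/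
  indep : AlgebraicIndependent ℤ ss
  /-- no coordinate is constant -/
  tr : ∀ i, Transcendental (Algebra.adjoin ℤ (Set.range ss)) (zs i)
  /-- the fibres are curves -/
  alg : ∀ i j, IsAlgebraic (Algebra.adjoin ℤ (Set.range ss ∪ {zs i})) (zs j)
  /-- if one coordinate is `0` then the others are not `0` or `∞` -/
  nz : ∃ P : MvPolynomial σ ℤ, P ≠ 0 ∧ ∀ v : AbsoluteValue ℂ ℝ, IsNonarchimedean v →
    ∀ (s : σ → ℂ) (z : Fin n → ℂ), z ∈ fib ss zs s → (∀ κ, v (s κ) ≤ 1) → v (aeval s P) = 1 →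
      ∀ i j, i ≠ j → v (z i) < 1 → v (z j) = 1

/-- what is known at the place `v` on the set `Z`: `K` bounds the exponents of the relations, `T` contains the
ratios of the pole orders -/
structure LocalPol (v : AbsoluteValue ℂ ℝ) (p K : ℕ) (T : Finset (ℤ × ℤ)) (Z : Set (Fin n → ℂ)) : Prop where
  /-- if one coordinate is small then the others are units -/
  nz : ∀ z ∈ Z, ∀ i j, i ≠ j → v (z i) < 1 → v (z j) = 1
  /-- the relations between the monomials with exponents at most `K` -/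
  rel : ∀ a b : Fin n → ℤ, (∀ i, |a i| ≤ K) → (∀ i, |b i| ≤ K) →
    (∀ s t : ℤ, (∀ i, s * a i + t * b i = 0) → s = 0 ∧ t = 0) →
      ∃ H : MvPolynomial (Fin 2) ℤ, Holds H Z a b ∧ GoodRel v p H
  /-- the pairs `(v (z_i), v (z_j))` lie on finitely many lines -/
  trop : ∀ z ∈ Z, ∀ i j, i ≠ j → z i ≠ 0 → z j ≠ 0 →
    ∃ c ∈ T, c ≠ 0 ∧ v (z i) ^ c.1 * v (z j) ^ c.2 = 1

/-- a smaller set -/
lemma LocalPol.mono {v : AbsoluteValue ℂ ℝ} {p K : ℕ} {T : Finset (ℤ × ℤ)} {Z Z' : Set (Fin n → ℂ)}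
    (h : LocalPol v p K T Z) (hZ : Z' ⊆ Z) : LocalPol v p K T Z' :=
  ⟨fun z hz => h.nz z (hZ hz), fun a b ha hb hab => by
    obtain ⟨H, h1, h2⟩ := h.rel a b ha hb hab
    exact ⟨H, fun z hz => h1 z (hZ hz), h2⟩, fun z hz => h.trop z (hZ hz)⟩

/-- the points with at most one coordinate which is not a unit -/
def atMostOne (v : AbsoluteValue ℂ ℝ) (Z : Set (Fin n → ℂ)) : Set (Fin n → ℂ) :=
  {z ∈ Z | ∀ i j, i ≠ j → v (z i) = 1 ∨ v (z j) = 1}

/-- the points with at most one coordinate which is not a unit: the earlier case -/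
lemma LocalPol.localGood {v : AbsoluteValue ℂ ℝ} {p K : ℕ} {T : Finset (ℤ × ℤ)} {Z : Set (Fin n → ℂ)}
    (h : LocalPol v p K T Z) (hK : 1 ≤ K) : LocalGood v p (atMostOne v Z) :=
  ⟨fun _ hz => hz.2, fun a b ha hb hab => by
    have hK' : (1 : ℤ) ≤ K := by exact_mod_cast hK
    obtain ⟨H, h1, h2⟩ := h.rel a b (fun i => (ha i).trans hK') (fun i => (hb i).trans hK') hab
    exact ⟨H, fun z hz => h1 z hz.1, h2⟩⟩

/-- the other points are polar: no coordinate is small, and two coordinates are large -/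
lemma LocalPol.polar {v : AbsoluteValue ℂ ℝ} {p K : ℕ} {T : Finset (ℤ × ℤ)} {Z : Set (Fin n → ℂ)}
    (h : LocalPol v p K T Z) {z : Fin n → ℂ} (hz : z ∈ Z) (hz' : z ∉ atMostOne v Z) :
    (∀ i, 1 ≤ v (z i)) ∧ ∃ i j, i ≠ j ∧ 1 < v (z i) ∧ 1 < v (z j) := by
  have h1 : ∃ i j, i ≠ j ∧ v (z i) ≠ 1 ∧ v (z j) ≠ 1 := by
    by_contra hcon
    push Not at hcon
    refine hz' ⟨hz, fun i j hij => ?_⟩
    by_cases h2 : v (z i) = 1
    · exact Or.inl h2
    · exact Or.inr (hcon i j hij h2)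
  obtain ⟨i, j, hij, hi, hj⟩ := h1
  have hi1 : 1 < v (z i) := lt_of_le_of_ne (not_lt.1 fun h2 => hj (h.nz z hz i j hij h2)) (Ne.symm hi)
  have hj1 : 1 < v (z j) := lt_of_le_of_ne (not_lt.1 fun h2 => hi (h.nz z hz j i hij.symm h2)) (Ne.symm hj)
  refine ⟨fun k => not_lt.1 fun hk => ?_, i, j, hij, hi1, hj1⟩
  have hki : k ≠ i := by
    rintro rfl
    exact absurd hi1 (not_lt.2 hk.le)
  exact hi (h.nz z hz k i hki hk)

end Pool.Agent.Helper11.AB
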