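import Pool.Agent.Helper11.AB.Defs
import Pool.Agent.Helper11.AA.Family
import Pool.Agent.Helper22.AA.Irr

/-! # Linear systems: no coordinate is small if another one is not a unit -/

open MvPolynomial Finset

namespace Pool.Agent.Helper11.AB
open Pool.Agent.Helper69.AA Pool.Agent.Helper11.LC Pool.Agent.Helper11.ZP Pool.Agent.Helper36.DL
  Pool.Agent.Helper11.AA

variable {n r : ℕ} {v : AbsoluteValue ℂ ℝ}

/-- a translated relation: if `x` is small then `y` is a unit -/
theorem nz_core (hv : IsNonarchimedean v) {D E : ℕ} {c : ℕ → ℕ → ℂ} (hc : ∀ a b, v (c a b) ≤ 1)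
    {α β : ℂ} (hα : v α ≤ 1) (hβ : v β ≤ 1) (h1 : v (∑ a ∈ range (D + 1), c a E * α ^ a) = 1)
    (h2 : v (∑ a ∈ range (D + 1), ∑ b ∈ range (E + 1), c a b * α ^ a * β ^ b) = 1)
    {x y : ℂ} (h : ∑ a ∈ range (D + 1), ∑ b ∈ range (E + 1), c a b * (x + α) ^ a * (y + β) ^ b = 0)
    (hx : v x < 1) : v y = 1 := by
  have small : ∀ {z γ : ℂ}, v γ ≤ 1 → v z < 1 → Cong v (z + γ) γ := by
    intro z γ hγ hz
    refine ⟨(hv _ _).trans (max_le hz.le hγ), hγ, ?_⟩
    rw [add_sub_cancel_right]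
    exact hz
  have hY : ∑ b ∈ range (E + 1), (∑ a ∈ range (D + 1), c a b * (x + α) ^ a) * (y + β) ^ b = 0 := by
    rw [← h, Finset.sum_comm]
    refine Finset.sum_congr rfl fun a _ => ?_
    rw [Finset.sum_mul]
  have h5 : ∀ b, Cong v (∑ a ∈ range (D + 1), c a b * (x + α) ^ a)
      (∑ a ∈ range (D + 1), c a b * α ^ a) := fun b =>
    Cong.sum hv _ fun a _ => (Cong.refl (hc a b)).mul hv ((small hα hx).pow hv a)
  have h6 := le_one_of_root hv (fun b => (h5 b).1) ((h5 E).unit hv h1) hY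
  have h7 : v y ≤ 1 := by
    rw [show y = (y + β) + -β by ring]
    refine (hv _ _).trans (max_le h6 ?_)
    rw [v.map_neg]
    exact hβ
  refine le_antisymm h7 (not_lt.1 fun hy => ?_)
  have h8 : Cong v (∑ a ∈ range (D + 1), ∑ b ∈ range (E + 1), c a b * (x + α) ^ a * (y + β) ^ b)
      (∑ a ∈ range (D + 1), ∑ b ∈ range (E + 1), c a b * α ^ a * β ^ b) :=
    Cong.sum hv _ fun a _ => Cong.sum hv _ fun b _ =>
      ((Cong.refl (hc a b)).mul hv ((small hα hx).pow hv a)).mul hv ((small hβ hy).pow hv b)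
  have h9 := h8.unit hv h2
  rw [h, map_zero] at h9
  exact zero_ne_one h9

/-- the double sum, with the degree in the second variable -/
lemma evs_eq_sum₂ {σ : Type} (s : σ → ℂ) (x y : ℂ) (G : MvPolynomial (Fin 2) (MvPolynomial σ ℤ)) :
    evs s G x y = ∑ a ∈ range (G.totalDegree + 1), ∑ b ∈ range (G.degreeOf 1 + 1),
      aeval s (G.coeff (Finsupp.single 0 a + Finsupp.single 1 b)) * x ^ a * y ^ b := by
  classical
  rw [Helper11.AA.evs_eq_sum s x y G le_rfl]
  refine sum_congr rfl fun a _ => ?_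
  symm
  refine sum_subset (fun b hb => ?_) fun b _ hb => ?_
  · rw [mem_range] at hb ⊢
    have := degreeOf_le_totalDegree G 1
    omega
  · have h1 : G.coeff (Finsupp.single 0 a + Finsupp.single 1 b) = 0 := by
      by_contra h2
      have h3 := monomial_le_degreeOf 1 (mem_support_iff.2 h2)
      rw [Finsupp.add_apply, Finsupp.single_eq_of_ne (by decide), Finsupp.single_eq_same, zero_add] at h3
      rw [mem_range] at hb
      omega
    rw [h1, map_zero, zero_mul, zero_mul]

/-- a polynomial which vanishes everywhere has coefficients zero -/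
lemma coeff_eq_zero_of {D : ℕ} {d : ℕ → ℂ} (h : ∀ x : ℂ, ∑ a ∈ range (D + 1), d a * x ^ a = 0) {k : ℕ}
    (hk : k ≤ D) : d k = 0 := by
  have h1 : (∑ a ∈ Finset.range (D + 1), Polynomial.monomial a (d a) : Polynomial ℂ) = 0 := by
    refine Polynomial.funext fun x => ?_
    rw [Polynomial.eval_finsetSum, Polynomial.eval_zero, ← h x]
    exact Finset.sum_congr rfl fun a _ => Polynomial.eval_monomial
  have h2 := congrArg (fun q => Polynomial.coeff q k) h1
  simp only [Polynomial.finsetSum_coeff, Polynomial.coeff_monomial, Polynomial.coeff_zero] at h2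
  rwa [Finset.sum_ite_eq' (Finset.range (D + 1)) k, if_pos (Finset.mem_range.2 (by omega))] at h2

/-- the polynomials in the parameters are nonzero -/
lemma nz_poly_ne_zero {i j : Fin n} (hij : i ≠ j) {D E : ℕ} {c : ℕ → ℕ → MvPolynomial (Fin r) ℤ}
    {s' : Fin r → ℂ} {k : ℕ} (hk : k ≤ D) (hc : aeval s' (c k E) ≠ 0) :
    (∑ a ∈ range (D + 1), rename Sum.inr (c a E) * (-X (Sum.inl i)) ^ a :
      MvPolynomial (Fin n ⊕ Fin r) ℤ) ≠ 0 ∧
    (∑ a ∈ range (D + 1), ∑ b ∈ range (E + 1),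
      rename Sum.inr (c a b) * (-X (Sum.inl i)) ^ a * (-X (Sum.inl j)) ^ b :
      MvPolynomial (Fin n ⊕ Fin r) ℤ) ≠ 0 := by
  classical
  set t : ℂ → ℂ → Fin n ⊕ Fin r → ℂ := fun x y =>
    Sum.elim (fun k => if k = i then -x else if k = j then -y else 0) s' with ht
  have hren : ∀ (x y : ℂ) (q : MvPolynomial (Fin r) ℤ),
      aeval (t x y) (rename Sum.inr q : MvPolynomial (Fin n ⊕ Fin r) ℤ) = aeval s' q := by
    intro x y q
    rw [aeval_rename]
    rfl
  have hXi : ∀ x y : ℂ, aeval (t x y) (-X (Sum.inl i) : MvPolynomial (Fin n ⊕ Fin r) ℤ) = x := by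
    intro x y
    rw [map_neg, aeval_X]
    simp [ht]
  have hXj : ∀ x y : ℂ, aeval (t x y) (-X (Sum.inl j) : MvPolynomial (Fin n ⊕ Fin r) ℤ) = y := by
    intro x y
    rw [map_neg, aeval_X]
    simp [ht, hij.symm]
  refine ⟨fun h => ?_, fun h => ?_⟩
  · refine hc (coeff_eq_zero_of (d := fun a => aeval s' (c a E)) (fun x => ?_) hk)
    have h4 := congrArg (aeval (t x 0)) h
    rw [map_sum, map_zero] at h4
    rw [← h4]
    exact Finset.sum_congr rfl fun b _ => by rw [map_mul, map_pow, hren, hXi]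
  · refine hc (coeff_eq_zero_of (d := fun a => aeval s' (c a E)) (fun x => ?_) hk)
    refine coeff_eq_zero_of (D := E) (d := fun b => ∑ a ∈ range (D + 1), aeval s' (c a b) * x ^ a)
      (fun y => ?_) le_rfl
    have h4 := congrArg (aeval (t x y)) h
    rw [map_sum, map_zero] at h4
    rw [← h4]
    simp only [Finset.sum_mul]
    rw [Finset.sum_comm]
    refine Finset.sum_congr rfl fun a _ => ?_
    rw [map_sum]
    exact Finset.sum_congr rfl fun b _ => by rw [map_mul, map_mul, map_pow, map_pow, hren, hXi, hXj]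

/-- the values of polynomials with integral coefficients -/
lemma v_aeval_le_one (hv : IsNonarchimedean v) {τ : Type} {t : τ → ℂ} (ht : ∀ k, v (t k) ≤ 1)
    (F : MvPolynomial τ ℤ) : v (aeval t F) ≤ 1 := by
  induction F using MvPolynomial.induction_on with
  | C a =>
    rw [algHom_C]
    simpa using hv.apply_intCast_le_one (n := a)
  | add p q hp hq =>
    rw [map_add]
    exact (hv _ _).trans (max_le hp hq)
  | mul_X p k hp =>
    rw [map_mul, map_mul, aeval_X]
    exact mul_le_one₀ hp (apply_nonneg _ _) (ht k)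

/-- the factors of a unit are units -/
lemma unit_of_prod (hv : IsNonarchimedean v) {τ ι : Type} {t : τ → ℂ} (ht : ∀ k, v (t k) ≤ 1)
    (S : Finset ι) (P : ι → MvPolynomial τ ℤ) (h : v (aeval t (∏ i ∈ S, P i)) = 1) {i : ι} (hi : i ∈ S) :
    v (aeval t (P i)) = 1 := by
  classical
  rw [← mul_prod_erase S P hi, map_mul, map_mul] at h
  refine le_antisymm (v_aeval_le_one hv ht _) (not_lt.1 fun h1 => ?_)
  have h2 := v_aeval_le_one hv ht (∏ x ∈ S.erase i, P x)
  have h3 : v (aeval t (P i)) * v (aeval t (∏ x ∈ S.erase i, P x)) < 1 :=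
    lt_of_le_of_lt (mul_le_of_le_one_right (apply_nonneg _ _) h2) h1
  exact absurd h h3.ne

/-- the factors of a unit are units -/
lemma unit_of_mul (hv : IsNonarchimedean v) {τ : Type} {t : τ → ℂ} (ht : ∀ k, v (t k) ≤ 1)
    {P Q : MvPolynomial τ ℤ} (h : v (aeval t (P * Q)) = 1) : v (aeval t P) = 1 ∧ v (aeval t Q) = 1 := by
  rw [map_mul, map_mul] at h
  have hP := v_aeval_le_one hv ht P
  have hQ := v_aeval_le_one hv ht Q
  constructor
  · refine le_antisymm hP (not_lt.1 fun h1 => ?_)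
    exact absurd h (lt_of_le_of_lt (mul_le_of_le_one_right (apply_nonneg _ _) hQ) h1).ne
  · refine le_antisymm hQ (not_lt.1 fun h1 => ?_)
    exact absurd h (lt_of_le_of_lt (mul_le_of_le_one_left (apply_nonneg _ _) hP) h1).ne

/-- the linear forms are algebraically dependent over their coefficients -/
theorem exists_dep_phi {κ : Fin r → Fin n} {s' : Fin r → ℂ} (hind : AlgebraicIndependent ℤ s')
    {ws : Fin r → ℂ} (k₀ : Fin r) (hw : ∀ l, IsAlgebraic (Algebra.adjoin ℤ {ws k₀}) (ws l)) (i j : Fin n) :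
    ∃ G : MvPolynomial (Fin 2) (MvPolynomial (Fin r) ℤ), G ≠ 0 ∧
      evs s' G (phi κ s' ws i) (phi κ s' ws j) = 0 := by
  classical
  set A := Algebra.adjoin ℤ (Set.range s') with hA
  have hphi : ∀ i, IsAlgebraic (Algebra.adjoin A {ws k₀}) (phi κ s' ws i) := by
    intro i
    have : phi κ s' ws i ∈ Subalgebra.algebraicClosure (Algebra.adjoin A {ws k₀}) ℂ := by
      refine sum_mem fun k _ => mul_mem ?_ ?_
      · have h1 : (algebraMap (Algebra.adjoin A {ws k₀}) ℂ)
            (algebraMap A _ ⟨s' k, Algebra.subset_adjoin ⟨k, rfl⟩⟩) = s' k := rfl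
        rw [← h1]
        exact Subalgebra.algebraMap_mem _ _
      · refine Helper22.AA.alg_adjoin ?_
        refine Helper22.AA.alg_of_sub (fun x hx => ?_) (hw k)
        exact Algebra.adjoin_mono Set.subset_union_right hx
    exact this
  obtain ⟨G, hG0, hG⟩ := Helper22.AA.dep_of_alg' (hphi i) (hphi j)
  let e := hind.aevalEquiv
  refine ⟨map e.symm.toRingHom G, fun h0 => hG0 (map_injective e.symm.toRingHom e.symm.injective
    (by rw [h0, map_zero])), ?_⟩
  unfold evs
  rw [eval₂_map, ← hG, aeval_def]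
  congr 1
  ext1 r
  have h1 : ((e (e.symm r) : A) : ℂ) = aeval s' (e.symm r) := hind.aevalEquiv_apply_coe _
  rw [AlgEquiv.apply_symm_apply] at h1
  exact h1.symm

/-- **the condition for a pair** -/
theorem nz_pair {κ : Fin r → Fin n} {ss : Fin n ⊕ Fin r → ℂ} {ws : Fin r → ℂ}
    (hind : AlgebraicIndependent ℤ ss) (k₀ : Fin r)
    (hw : ∀ l, IsAlgebraic (Algebra.adjoin ℤ {ws k₀}) (ws l)) {i j : Fin n} (hij : i ≠ j) :
    ∃ P : MvPolynomial (Fin n ⊕ Fin r) ℤ, P ≠ 0 ∧ ∀ v : AbsoluteValue ℂ ℝ, IsNonarchimedean v →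
      ∀ (s : Fin n ⊕ Fin r → ℂ) (z : Fin n → ℂ), z ∈ fib ss (lin κ ss ws) s → (∀ k, v (s k) ≤ 1) →
        v (aeval s P) = 1 → v (z i) < 1 → v (z j) = 1 := by
  classical
  set s' : Fin r → ℂ := fun k => ss (Sum.inr k) with hs'
  have hind' : AlgebraicIndependent ℤ s' := hind.comp _ Sum.inr_injective
  obtain ⟨G, hG0, hG⟩ := exists_dep_phi (κ := κ) hind' k₀ hw i j
  set D := G.totalDegree with hD
  set E := G.degreeOf 1 with hE
  set c : ℕ → ℕ → MvPolynomial (Fin r) ℤ := fun a b => G.coeff (Finsupp.single 0 a + Finsupp.single 1 b) with hc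
  have hrel := evs_eq_sum₂ s' (phi κ s' ws i) (phi κ s' ws j) G
  rw [hG] at hrel
  -- the top coefficient
  obtain ⟨m, hm, hmE⟩ : ∃ m ∈ G.support, m 1 = E := by
    obtain ⟨t, ht1, ht2⟩ := Helper69.AA.exists_top hG0 1
    exact ⟨t, mem_support_iff.2 ht2, ht1⟩
  have hmD : m 0 ≤ D := by
    refine le_trans ?_ (le_totalDegree hm)
    rw [Finsupp.sum_fintype _ _ (fun _ => rfl), Fin.sum_univ_two]
    exact Nat.le_add_right _ _
  have hcm : aeval s' (c (m 0) E) ≠ 0 := by
    have h1 : c (m 0) E = G.coeff m := by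
      have h2 : (Finsupp.single 0 (m 0) + Finsupp.single 1 E : Fin 2 →₀ ℕ) = m := by
        ext t
        fin_cases t
        · simp
        · simp [hmE]
      rw [hc]
      change G.coeff (Finsupp.single 0 (m 0) + Finsupp.single 1 E) = _
      rw [h2]
    rw [h1]
    intro h2
    exact (mem_support_iff.1 hm) ((map_eq_zero_iff _ hind').1 h2)
  obtain ⟨n1, n2⟩ := nz_poly_ne_zero (n := n) hij hmD hcm
  set P1 : MvPolynomial (Fin n ⊕ Fin r) ℤ :=
    ∑ a ∈ range (D + 1), rename Sum.inr (c a E) * (-X (Sum.inl i)) ^ a with hP1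
  set P2 : MvPolynomial (Fin n ⊕ Fin r) ℤ := ∑ a ∈ range (D + 1), ∑ b ∈ range (E + 1),
      rename Sum.inr (c a b) * (-X (Sum.inl i)) ^ a * (-X (Sum.inl j)) ^ b with hP2
  refine ⟨P1 * P2, mul_ne_zero n1 n2, fun v hv s z hz hs hone hzi => ?_⟩
  obtain ⟨e1, e2⟩ := unit_of_mul hv hs hone
  have hren : ∀ q : MvPolynomial (Fin r) ℤ, aeval s (rename Sum.inr q : MvPolynomial (Fin n ⊕ Fin r) ℤ) =
      aeval (fun k => s (Sum.inr k)) q := by
    intro q
    rw [aeval_rename]
    rfl
  have hX : ∀ k, aeval s (-X (Sum.inl k) : MvPolynomial (Fin n ⊕ Fin r) ℤ) = -s (Sum.inl k) := by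
    intro k
    rw [map_neg, aeval_X]
  refine nz_core hv (D := D) (E := E) (c := fun a b => aeval (fun k => s (Sum.inr k)) (c a b))
    (fun a b => v_aeval_le_one hv (fun k => hs _) _) (α := -s (Sum.inl i)) (β := -s (Sum.inl j))
    (by rw [v.map_neg]; exact hs _) (by rw [v.map_neg]; exact hs _) ?_ ?_ ?_ hzi
  · rw [hP1, map_sum] at e1
    simp only [map_mul, map_pow, hren, hX] at e1
    exact e1
  · rw [hP2, map_sum] at e2
    simp only [map_sum, map_mul, map_pow, hren, hX] at e2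
    exact e2
  · -- the relation on the fibre
    set F : MvPolynomial ((Fin n ⊕ Fin r) ⊕ Fin n) ℤ :=
      ∑ a ∈ Finset.range (D + 1), ∑ b ∈ Finset.range (E + 1),
        rename (Sum.inl ∘ Sum.inr) (c a b) * (X (Sum.inr i) + -X (Sum.inl (Sum.inl i))) ^ a *
          (X (Sum.inr j) + -X (Sum.inl (Sum.inl j))) ^ b with hF
    have hFz : ∀ (t : Fin n ⊕ Fin r → ℂ) (y : Fin n → ℂ), aeval (Sum.elim t y) F =
        ∑ a ∈ Finset.range (D + 1), ∑ b ∈ Finset.range (E + 1),
          aeval (fun k => t (Sum.inr k)) (c a b) * (y i + -t (Sum.inl i)) ^ a *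
            (y j + -t (Sum.inl j)) ^ b := by
      intro t y
      rw [hF, map_sum]
      refine Finset.sum_congr rfl fun a _ => ?_
      rw [map_sum]
      refine Finset.sum_congr rfl fun b _ => ?_
      rw [map_mul, map_mul, map_pow, map_pow, map_add, map_add, map_neg, map_neg, aeval_X, aeval_X,
        aeval_X, aeval_X, aeval_rename]
      rfl
    have h5 := hz F (by
      rw [hFz, hrel]
      refine Finset.sum_congr rfl fun a _ => Finset.sum_congr rfl fun b _ => ?_
      have e5 : ∀ k, lin κ ss ws k + -ss (Sum.inl k) = phi κ s' ws k := by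
        intro k
        simp only [lin, phi, hs']
        ring
      rw [e5, e5])
    rw [hFz] at h5
    exact h5

/-- **all linear systems are families** -/
theorem linear_familyNZ {V : Set (Fin r → ℂ)} (hV : IsSubvariety V) (h1 : dim V = 1)
    (hc : ∀ (i : Fin r) (c : ℂ), ∃ z ∈ V, z i ≠ c) (hs : OverAlg V) {κ : Fin r → Fin n}
    (hsurj : Function.Surjective κ) :
    ∃ (ss : Fin n ⊕ Fin r → ℂ) (ws : Fin r → ℂ), ws ∈ V ∧ FamilyNZ ss (lin κ ss ws) ∧
      (∀ s, ∀ w ∈ V, lin κ s w ∈ fib ss (lin κ ss ws) s) ∧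
      AlgebraicIndependent (Algebra.adjoin ℤ (Set.range ws)) ss := by
  classical
  have hr : 0 < r := by
    rcases Nat.eq_zero_or_pos r with rfl | h
    · exact absurd h1 (by rw [Helper36.DL.dim_zero]; exact zero_ne_one)
    · exact h
  obtain ⟨ws, hws, htr, hgen⟩ := Helper22.DL.exists_generic hV h1 hc ⟨0, hr⟩
  have hcount : Countable (Algebra.adjoin ℤ (Set.range ws)) := by
    have h2 : Countable (MvPolynomial (Fin r) ℤ) := Cardinal.mk_le_aleph0_iff.1
      ((MvPolynomial.cardinalMk_le_max (σ := Fin r) (R := ℤ)).trans (by simp))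
    rw [Algebra.adjoin_range_eq_range_aeval]
    exact Set.countable_coe_iff.2 (Set.countable_range _)
  obtain ⟨ss, hind⟩ := exists_indep (Algebra.adjoin ℤ (Set.range ws)) hcount (Fin n ⊕ Fin r)
  have hindZ : AlgebraicIndependent ℤ ss :=
    hind.restrictScalars (algebraMap ℤ (Algebra.adjoin ℤ (Set.range ws))).injective_int
  have hw : ∀ k l, IsAlgebraic (Algebra.adjoin ℤ {ws k}) (ws l) := by
    intro k l
    rcases eq_or_ne k l with rfl | hkl
    · exact isAlgebraic_algebraMap (⟨ws k, Algebra.subset_adjoin rfl⟩ : Algebra.adjoin ℤ {ws k})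
    · obtain ⟨g, hg0, hgJ, hga, hgV⟩ := algDependent_of_overAlg hV hs {k, l} (by
        rw [card_pair hkl, h1])
      exact alg_of_pair' hkl hgJ hga hg0 (hgV ws hws) (htr k)
  refine ⟨ss, ws, hws, ⟨hindZ, fun i => ?_, fun i j => ?_, ?_⟩, fun s w hw' => ?_, hind⟩
  · obtain ⟨k₀, rfl⟩ := hsurj i
    exact lin_transcendental hind (htr k₀)
  · exact lin_alg hind htr hw hsurj i j
  · have hP : ∀ i j : Fin n, ∃ P : MvPolynomial (Fin n ⊕ Fin r) ℤ, P ≠ 0 ∧ (i ≠ j →
        ∀ v : AbsoluteValue ℂ ℝ, IsNonarchimedean v →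
        ∀ (s : Fin n ⊕ Fin r → ℂ) (z : Fin n → ℂ), z ∈ fib ss (lin κ ss ws) s → (∀ k, v (s k) ≤ 1) →
          v (aeval s P) = 1 → v (z i) < 1 → v (z j) = 1) := by
      intro i j
      rcases eq_or_ne i j with rfl | hij
      · exact ⟨1, one_ne_zero, fun h => absurd rfl h⟩
      · obtain ⟨P, hP0, hP⟩ := nz_pair hindZ ⟨0, hr⟩ (hw ⟨0, hr⟩) hij (κ := κ)
        exact ⟨P, hP0, fun _ => hP⟩
    choose P hP0 hP using hP
    refine ⟨∏ q : Fin n × Fin n, P q.1 q.2, prod_ne_zero_iff.2 fun q _ => hP0 _ _, ?_⟩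
    intro v hv s z hz hs' hone i j hij
    exact hP i j hij v hv s z hz hs' (unit_of_prod hv hs' univ (fun q : Fin n × Fin n => P q.1 q.2) hone
      (mem_univ (i, j)))
  · exact lin_mem_fib hind s fun G hG => hgen G hG w hw'

end Pool.Agent.Helper11.AB
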