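import Pool.Agent.Helper11.AB.Trans
import Pool.Agent.Helper69.AA.Good
import Pool.Agent.Helper81.AA.Near
import Pool.Agent.Helper20.PL.Pol

/-! # Families with common poles: the relations, the tropical lines, the local data -/

open MvPolynomial Finset

namespace Pool.Agent.Helper11.AB
open Pool.Agent.Helper20.ZD Pool.Agent.Helper20.DL Pool.Agent.Helper69.DL Pool.Agent.Helper36.DL
  Pool.Agent.Helper69.AA Pool.Agent.Helper22.AA Pool.Agent.Helper22.DL Pool.Agent.Helper81.AA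

variable {σ : Type} {n : ℕ} {v : AbsoluteValue ℂ ℝ}

/-- the vectors `a`, `b` are linearly independent -/
def Indep (a b : Fin n → ℤ) : Prop := ∀ s t : ℤ, (∀ i, s * a i + t * b i = 0) → s = 0 ∧ t = 0

/-- the irreducible relations `H a b` between the monomials `z ^ a`, `z ^ b` of a family -/
structure FamRel (ss : σ → ℂ) (zs : Fin n → ℂ)
    (H : (Fin n → ℤ) → (Fin n → ℤ) → MvPolynomial (Fin 2) (MvPolynomial σ ℤ)) : Prop where
  irr : ∀ a b, Indep a b → Irreducible (H a b)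
  deg₀ : ∀ a b, Indep a b → 0 < (H a b).degreeOf 0
  deg₁ : ∀ a b, Indep a b → 0 < (H a b).degreeOf 1
  rel : ∀ a b, Indep a b → evs ss (H a b) (∏ i, zs i ^ a i) (∏ i, zs i ^ b i) = 0
  min : ∀ a b, Indep a b → ∀ x y : ℂ, evs ss (H a b) x y = 0 →
    (Transcendental (Algebra.adjoin ℤ (Set.range ss)) x ∨ Transcendental (Algebra.adjoin ℤ (Set.range ss)) y) →
      ∀ G : MvPolynomial (Fin 2) (MvPolynomial σ ℤ), evs ss G x y = 0 → H a b ∣ G

theorem exists_famRel [Countable σ] {ss : σ → ℂ} {zs : Fin n → ℂ} (hF : FamilyNZ ss zs) :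
    ∃ H, FamRel ss zs H := by
  classical
  have h : ∀ a b : Fin n → ℤ, ∃ H : MvPolynomial (Fin 2) (MvPolynomial σ ℤ), Indep a b →
      (Irreducible H ∧ 0 < H.degreeOf 0 ∧
      0 < H.degreeOf 1 ∧ evs ss H (∏ i, zs i ^ a i) (∏ i, zs i ^ b i) = 0 ∧
      ∀ x y : ℂ, evs ss H x y = 0 → (Transcendental (Algebra.adjoin ℤ (Set.range ss)) x ∨
        Transcendental (Algebra.adjoin ℤ (Set.range ss)) y) →
          ∀ G : MvPolynomial (Fin 2) (MvPolynomial σ ℤ), evs ss G x y = 0 → H ∣ G) := by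
    intro a b
    by_cases hab : Indep a b
    · obtain ⟨H, hH⟩ := exists_rel hF hab
      exact ⟨H, fun _ => hH⟩
    · exact ⟨0, fun h => absurd h hab⟩
  choose H hH using h
  exact ⟨H, fun a b h => (hH a b h).1, fun a b h => (hH a b h).2.1, fun a b h => (hH a b h).2.2.1,
    fun a b h => (hH a b h).2.2.2.1, fun a b h => (hH a b h).2.2.2.2⟩

/-- the exponent vectors bounded by `K` -/
noncomputable def boxK (n K : ℕ) : Finset ((Fin n → ℤ) × (Fin n → ℤ)) :=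
  (Fintype.piFinset fun _ => Finset.Icc (-(K : ℤ)) K) ×ˢ (Fintype.piFinset fun _ => Finset.Icc (-(K : ℤ)) K)

lemma mem_boxK {K : ℕ} {a b : Fin n → ℤ} (ha : ∀ i, |a i| ≤ K) (hb : ∀ i, |b i| ≤ K) : (a, b) ∈ boxK n K := by
  rw [boxK, mem_product, Fintype.mem_piFinset, Fintype.mem_piFinset]
  exact ⟨fun i => mem_Icc.2 (abs_le.1 (ha i)), fun i => mem_Icc.2 (abs_le.1 (hb i))⟩

/-- **the relations are good at almost all places** -/
theorem FamRel.spread [Countable σ] {ss : σ → ℂ} {zs : Fin n → ℂ} (hF : FamilyNZ ss zs)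
    {H : (Fin n → ℤ) → (Fin n → ℤ) → MvPolynomial (Fin 2) (MvPolynomial σ ℤ)} (hH : FamRel ss zs H) (K : ℕ) :
    ∃ P : MvPolynomial σ ℤ, P ≠ 0 ∧ ∀ (s : σ → ℤ) (p : ℕ), p.Prime → ¬ (p : ℤ) ∣ eval s P →
      ∀ v : AbsoluteValue ℂ ℝ, IsNonarchimedean v → v (p : ℂ) < 1 →
        ∀ a b : Fin n → ℤ, (∀ i, |a i| ≤ K) → (∀ i, |b i| ≤ K) → Indep a b →
          GoodRel v p (map (eval s) (H a b)) := by
  classical
  have hz0 : ∀ i, zs i ≠ 0 := fun i h => hF.tr i (h ▸ isAlgebraic_zero)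
  have key : ∀ a b : Fin n → ℤ, ∃ P : MvPolynomial σ ℤ, P ≠ 0 ∧ (Indep a b →
      ∀ (s : σ → ℤ) (p : ℕ), p.Prime → ¬ (p : ℤ) ∣ eval s P → ∀ v : AbsoluteValue ℂ ℝ,
        IsNonarchimedean v → v (p : ℂ) < 1 → GoodRel v p (map (eval s) (H a b))) := by
    intro a b
    by_cases hab : Indep a b
    · have hx0 : ∏ i, zs i ^ a i ≠ 0 := prod_ne_zero_iff.2 fun i _ => zpow_ne_zero _ (hz0 i)
      have hy0 : ∏ i, zs i ^ b i ≠ 0 := prod_ne_zero_iff.2 fun i _ => zpow_ne_zero _ (hz0 i)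
      have hnc : NoCosetGen ss (H a b) :=
        noCosetGen_of hF.indep hx0 hy0 (hH.rel a b hab) (fun s t hst => transc_pair hF hab s t hst) (hH.min a b hab)
      obtain ⟨P, hP, h2⟩ := Helper69.AA.spread hF.indep (hH.irr a b hab) (hH.deg₀ a b hab) (hH.deg₁ a b hab) hnc
      exact ⟨P, hP, fun _ => h2⟩
    · exact ⟨1, one_ne_zero, fun h => absurd h hab⟩
  choose P hP hkey using key
  refine ⟨∏ q ∈ boxK n K, P q.1 q.2, prod_ne_zero_iff.2 fun q _ => hP _ _, ?_⟩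
  intro s p hp hpP v hv hvp a b ha hb hab
  exact hkey a b hab s p hp (fun h => hpP (h.trans (map_dvd (eval s)
    (Finset.dvd_prod_of_mem (fun q : (Fin n → ℤ) × (Fin n → ℤ) => P q.1 q.2) (mem_boxK ha hb))))) v hv hvp

/-- in a vanishing sum two terms have the same absolute value -/
lemma exists_two (hv : IsNonarchimedean v) {ι : Type*} {S : Finset ι} {f : ι → ℂ} (hf : ∀ i ∈ S, f i ≠ 0)
    (hS : S.Nonempty) (h : ∑ i ∈ S, f i = 0) : ∃ i ∈ S, ∃ j ∈ S, i ≠ j ∧ v (f i) = v (f j) := by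
  classical
  obtain ⟨i, hi, hmax⟩ := S.exists_max_image (fun i => v (f i)) hS
  by_contra hcon
  push Not at hcon
  have h1 : ∀ j ∈ S.erase i, v (f j) < v (f i) := by
    intro j hj
    rw [mem_erase] at hj
    exact lt_of_le_of_ne (hmax j hj.2) fun h2 => hcon i hi j hj.2 hj.1.symm h2.symm
  have hpos : 0 < v (f i) := v.pos (hf i hi)
  have h2 := v_sum_lt hv (S.erase i) f hpos h1
  rw [← add_sum_erase S f hi] at h
  have h3 : f i = -∑ j ∈ S.erase i, f j := eq_neg_of_add_eq_zero_left h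
  rw [h3, v.map_neg] at h2
  exact lt_irrefl _ (lt_of_lt_of_eq h2 (by rw [← v.map_neg, ← h3]))

lemma prod_single_one (z : Fin n → ℂ) (i : Fin n) : ∏ t, z t ^ (Pi.single i 1 : Fin n → ℤ) t = z i := by
  classical
  rw [← Finset.mul_prod_erase _ _ (mem_univ i), Finset.prod_eq_one, mul_one, Pi.single_eq_same, zpow_one]
  intro t ht
  rw [Pi.single_eq_of_ne (ne_of_mem_erase ht), zpow_zero]

lemma single_nonneg (i t : Fin n) : 0 ≤ (Pi.single i 1 : Fin n → ℤ) t := by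
  classical
  by_cases h : t = i
  · subst h; rw [Pi.single_eq_same]; exact zero_le_one
  · rw [Pi.single_eq_of_ne h]

lemma indep_single_single {i j : Fin n} (hij : i ≠ j) : Indep (Pi.single i 1) (Pi.single j 1) := by
  classical
  intro s t h
  have h1 := h i
  have h2 := h j
  rw [Pi.single_eq_same, Pi.single_eq_of_ne hij] at h1
  rw [Pi.single_eq_same, Pi.single_eq_of_ne hij.symm] at h2
  constructor <;> linarith

/-- **two coordinates: one small, and the tropical lines** -/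
theorem family_nz_trop [Countable σ] {ss : σ → ℂ} {zs : Fin n → ℂ} (hF : FamilyNZ ss zs) :
    ∃ (T : Finset (ℤ × ℤ)) (P : MvPolynomial σ ℤ), P ≠ 0 ∧ ∀ v : AbsoluteValue ℂ ℝ, IsNonarchimedean v →
      ∀ s : σ → ℂ, (∀ κ, v (s κ) ≤ 1) → v (aeval s P) = 1 → ∀ z ∈ fib ss zs s, ∀ i j, i ≠ j →
        (v (z i) < 1 → v (z j) = 1) ∧
          (z i ≠ 0 → z j ≠ 0 → ∃ c ∈ T, c ≠ 0 ∧ v (z i) ^ c.1 * v (z j) ^ c.2 = 1) := by
  classical
  obtain ⟨H, hH⟩ := exists_famRel hF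
  have hz0 : ∀ i, zs i ≠ 0 := fun i h => hF.tr i (h ▸ isAlgebraic_zero)
  obtain ⟨P₀, hP₀, hnz⟩ := hF.nz
  let G : Fin n → Fin n → MvPolynomial (Fin 2) (MvPolynomial σ ℤ) := fun i j => H (Pi.single i 1) (Pi.single j 1)
  let T : Finset (ℤ × ℤ) := univ.biUnion fun q : Fin n × Fin n =>
    ((G q.1 q.2).support ×ˢ (G q.1 q.2).support).image fun m =>
      ((m.1 0 : ℤ) - m.2 0, (m.1 1 : ℤ) - m.2 1)
  refine ⟨T, P₀ * ∏ q : Fin n × Fin n, ∏ m ∈ (G q.1 q.2).support, (G q.1 q.2).coeff m,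
    mul_ne_zero hP₀ (prod_ne_zero_iff.2 fun q _ => prod_ne_zero_iff.2 fun m hm => mem_support_iff.1 hm), ?_⟩
  intro v hv s hs hone z hz i j hij
  have hle : ∀ F : MvPolynomial σ ℤ, v (aeval s F) ≤ 1 := by
    intro F
    induction F using MvPolynomial.induction_on with
    | C a =>
      rw [algHom_C]
      simpa using hv.apply_intCast_le_one (n := a)
    | add p q hp hq =>
      rw [map_add]
      exact (hv _ _).trans (max_le hp hq)
    | mul_X p k hp =>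
      rw [map_mul, map_mul, aeval_X]
      exact mul_le_one₀ hp (apply_nonneg _ _) (hs k)
  have hmul : ∀ F F' : MvPolynomial σ ℤ, v (aeval s (F * F')) = 1 → v (aeval s F) = 1 ∧ v (aeval s F') = 1 := by
    intro F F' h
    rw [map_mul, map_mul] at h
    constructor
    · refine le_antisymm (hle _) (not_lt.1 fun h1 => ?_)
      exact absurd h (lt_of_le_of_lt (mul_le_of_le_one_right (apply_nonneg _ _) (hle F')) h1).ne
    · refine le_antisymm (hle _) (not_lt.1 fun h1 => ?_)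
      exact absurd h (lt_of_le_of_lt (mul_le_of_le_one_left (apply_nonneg _ _) (hle F)) h1).ne
  have hprod : ∀ {ι : Type} (S : Finset ι) (f : ι → MvPolynomial σ ℤ), v (aeval s (∏ x ∈ S, f x)) = 1 →
      ∀ x ∈ S, v (aeval s (f x)) = 1 := by
    intro ι S f h x hx
    rw [← mul_prod_erase S f hx] at h
    exact (hmul _ _ h).1
  obtain ⟨h1, h2⟩ := hmul _ _ hone
  refine ⟨hnz v hv s z hz hs h1 i j hij, fun hi hj => ?_⟩
  have h3 := hprod _ _ (hprod _ _ h2 (i, j) (mem_univ _))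
  -- the relation
  have h4 : evs s (G i j) (z i) (z j) = 0 := by
    have := evs_fib hz0 (hH.rel _ _ (indep_single_single hij)) hz fun t _ => ⟨single_nonneg i t, single_nonneg j t⟩
    rwa [prod_single_one, prod_single_one] at this
  rw [Helper69.AA.evs_eq_sum] at h4
  have hne : (G i j).support.Nonempty := by
    rw [nonempty_iff_ne_empty, Ne, support_eq_empty]
    exact (hH.irr _ _ (indep_single_single hij)).ne_zero
  have hc0 : ∀ m ∈ (G i j).support, aeval s ((G i j).coeff m) ≠ 0 := fun m hm h => by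
    have := h3 m hm
    rw [h, map_zero] at this
    exact zero_ne_one this
  obtain ⟨m, hm, m', hm', hmm, heq⟩ := exists_two hv
    (fun m hm => mul_ne_zero (mul_ne_zero (hc0 m hm) (pow_ne_zero _ hi)) (pow_ne_zero _ hj)) hne h4
  refine ⟨((m 0 : ℤ) - m' 0, (m 1 : ℤ) - m' 1), ?_, ?_, ?_⟩
  · exact mem_biUnion.2 ⟨(i, j), mem_univ _, mem_image.2 ⟨(m, m'), mem_product.2 ⟨hm, hm'⟩, rfl⟩⟩
  · intro h5
    apply hmm
    have h6 := congrArg Prod.fst h5
    have h7 := congrArg Prod.snd h5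
    simp only [Prod.fst_zero, Prod.snd_zero] at h6 h7
    ext t
    fin_cases t
    · change m 0 = m' 0
      omega
    · change m 1 = m' 1
      omega
  · rw [map_mul, map_mul, map_mul, map_mul, h3 m hm, h3 m' hm', one_mul, one_mul, map_pow, map_pow, map_pow,
      map_pow] at heq
    have vi : v (z i) ≠ 0 := (v.pos hi).ne'
    have vj : v (z j) ≠ 0 := (v.pos hj).ne'
    change v (z i) ^ ((m 0 : ℤ) - m' 0) * v (z j) ^ ((m 1 : ℤ) - m' 1) = 1
    rw [zpow_sub₀ vi, zpow_sub₀ vj, zpow_natCast, zpow_natCast, zpow_natCast, zpow_natCast]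
    rw [div_mul_div_comm, heq, div_self]
    exact mul_ne_zero (pow_ne_zero _ vi) (pow_ne_zero _ vj)

/-- the points of the fibres over the parameters near `s₀` modulo `p ^ L` -/
def near (v : AbsoluteValue ℂ ℝ) (p L : ℕ) (ss : σ → ℂ) (zs : Fin n → ℂ) (s₀ : σ → ℤ) : Set (Fin n → ℂ) :=
  {z | ∃ s : σ → ℂ, (∀ κ, v (s κ - s₀ κ) ≤ v (p : ℂ) ^ L) ∧ z ∈ fib ss zs s}

/-- `H(z ^ a, z ^ b) = 0` modulo `p ^ L` on `V`, at the points at which `z ^ a`, `z ^ b` are integral -/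
def HoldsMod (v : AbsoluteValue ℂ ℝ) (p L : ℕ) (H : MvPolynomial (Fin 2) ℤ) (V : Set (Fin n → ℂ))
    (a b : Fin n → ℤ) : Prop :=
  ∀ z ∈ V, (∀ i, z i = 0 → 0 ≤ a i ∧ 0 ≤ b i) → v (∏ i, z i ^ a i) ≤ 1 → v (∏ i, z i ^ b i) ≤ 1 →
    v (ev H (∏ i, z i ^ a i) (∏ i, z i ^ b i)) ≤ v (p : ℂ) ^ L

/-- `c ≠ 0`, and `v(x) ^ c.1 v(y) ^ c.2 = 1` -/
def OnLine (v : AbsoluteValue ℂ ℝ) (T : Finset (ℤ × ℤ)) (x y : ℂ) : Prop :=
  ∃ c ∈ T, c ≠ 0 ∧ v x ^ c.1 * v y ^ c.2 = 1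

/-- what is known at the place `v` on the set `Z`, with one list `H` of relations modulo `p ^ L` -/
structure LocalRel (v : AbsoluteValue ℂ ℝ) (p K L : ℕ) (T : Finset (ℤ × ℤ))
    (H : (Fin n → ℤ) → (Fin n → ℤ) → MvPolynomial (Fin 2) ℤ) (Z : Set (Fin n → ℂ)) : Prop where
  /-- if one coordinate is small then the others are units -/
  nz : ∀ z ∈ Z, ∀ i j, i ≠ j → v (z i) < 1 → v (z j) = 1
  /-- the relations are good -/
  good : ∀ a b : Fin n → ℤ, (∀ i, |a i| ≤ K) → (∀ i, |b i| ≤ K) → Indep a b → GoodRel v p (H a b)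
  /-- the relations hold -/
  holds : ∀ a b : Fin n → ℤ, Indep a b → HoldsMod v p L (H a b) Z a b
  /-- the pairs `(v (z_i), v (z_j))` lie on finitely many lines -/
  trop : ∀ z ∈ Z, ∀ i j, i ≠ j → z i ≠ 0 → z j ≠ 0 → OnLine v T (z i) (z j)

/-- **the fibres near an integral parameter** -/
theorem family_local [Countable σ] {ss : σ → ℂ} {zs : Fin n → ℂ} (hF : FamilyNZ ss zs)
    {H : (Fin n → ℤ) → (Fin n → ℤ) → MvPolynomial (Fin 2) (MvPolynomial σ ℤ)} (hH : FamRel ss zs H) :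
    ∃ T : Finset (ℤ × ℤ), ∀ K : ℕ, ∃ P : MvPolynomial σ ℤ, P ≠ 0 ∧ ∀ (s₀ : σ → ℤ) (p : ℕ), p.Prime →
      ¬ (p : ℤ) ∣ eval s₀ P → ∀ v : AbsoluteValue ℂ ℝ, IsNonarchimedean v → v (p : ℂ) < 1 →
        ∀ L : ℕ, 0 < L → LocalRel v p K L T (fun a b => map (eval s₀) (H a b)) (near v p L ss zs s₀) := by
  classical
  have hz0 : ∀ i, zs i ≠ 0 := fun i h => hF.tr i (h ▸ isAlgebraic_zero)
  obtain ⟨T, P₁, hP₁, h1⟩ := family_nz_trop hF
  refine ⟨T, fun K => ?_⟩
  obtain ⟨P₂, hP₂, h2⟩ := FamRel.spread hF hH K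
  refine ⟨P₁ * P₂, mul_ne_zero hP₁ hP₂, fun s₀ p hp hpP v hv hvp L hL => ?_⟩
  rw [map_mul] at hpP
  have hp1 : ¬ (p : ℤ) ∣ eval s₀ P₁ := fun h => hpP (h.mul_right _)
  have hp2 : ¬ (p : ℤ) ∣ eval s₀ P₂ := fun h => hpP (h.mul_left _)
  have hvp0 : 0 < v (p : ℂ) := (AbsoluteValue.pos_iff v).2 (by exact_mod_cast hp.ne_zero)
  have hr0 : 0 ≤ v (p : ℂ) ^ L := by positivity
  have hr1 : v (p : ℂ) ^ L < 1 := pow_lt_one₀ hvp0.le hvp hL.ne'
  have hunit : ∀ s : σ → ℂ, (∀ κ, v (s κ - s₀ κ) < 1) → v (aeval s P₁) = 1 := by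
    intro s hs
    have h3 := v_aeval_int hv hp hvp hp1
    have h4 : aeval (fun κ => (s₀ κ : ℂ)) P₁ = ((eval s₀ P₁ : ℤ) : ℂ) := by
      rw [aeval_def, ← eval₂_id]
      have := hom_eval₂ P₁ (RingHom.id ℤ) (algebraMap ℤ ℂ) s₀
      rw [RingHom.comp_id] at this
      exact this.symm
    rw [h4] at h3
    exact aeval_near_unit hv hs h3
  have hint : ∀ s : σ → ℂ, (∀ κ, v (s κ - s₀ κ) < 1) → ∀ κ, v (s κ) ≤ 1 := by
    intro s hs κ
    rw [show s κ = (s κ - s₀ κ) + s₀ κ by ring]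
    exact (hv _ _).trans (max_le (hs κ).le hv.apply_intCast_le_one)
  refine ⟨?_, h2 s₀ p hp hp2 v hv hvp, ?_, ?_⟩
  · rintro z ⟨s, hs, hz⟩ i j hij
    have hs1 := (near_facts hv hr0 hr1 hs).1
    exact (h1 v hv s (hint s hs1) (hunit s hs1) z hz i j hij).1
  · rintro a b hab z ⟨s, hs, hz⟩ hz1 ha hb
    have h3 := evs_fib hz0 (hH.rel a b hab) hz hz1
    rw [ev_map]
    have h4 := v_evs_sub_le hv (H a b) hr0 (near_facts hv hr0 hr1 hs).2 ha hb
    rw [h3, sub_zero] at h4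
    exact h4
  · rintro z ⟨s, hs, hz⟩ i j hij
    have hs1 := (near_facts hv hr0 hr1 hs).1
    exact (h1 v hv s (hint s hs1) (hunit s hs1) z hz i j hij).2

/-- the exponents of a line on which `1 ≤ v x < v y` -/
lemma OnLine.exponents {T : Finset (ℤ × ℤ)} {x y : ℂ} (h : OnLine v T y x) (hx : 1 ≤ v x) (hxy : v x < v y)
    {K : ℕ} (hK : 0 < K) (hT : ∀ c ∈ T, |c.2| ≤ K) : ∃ al be : ℕ, be < al ∧ al ≤ K ∧ v y ^ be = v x ^ al := by
  obtain ⟨c, hc, hc0, h1⟩ := h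
  have hy1 : 1 < v y := hx.trans_lt hxy
  have hx0 : 0 < v x := one_pos.trans_le hx
  have hy0 : 0 < v y := one_pos.trans hy1
  have hlog : c.1 * Real.log (v y) + c.2 * Real.log (v x) = 0 := by
    have h2 := congrArg Real.log h1
    rw [Real.log_mul (zpow_ne_zero _ hy0.ne') (zpow_ne_zero _ hx0.ne'), Real.log_zpow, Real.log_zpow,
      Real.log_one] at h2
    exact h2
  have hly : 0 < Real.log (v y) := Real.log_pos hy1
  have hlx : 0 ≤ Real.log (v x) := Real.log_nonneg hx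
  have hlt : Real.log (v x) < Real.log (v y) := Real.log_lt_log hx0 hxy
  by_cases h0 : c.1 = 0
  · refine ⟨1, 0, one_pos, hK, ?_⟩
    have h2 : c.2 ≠ 0 := fun h => hc0 (Prod.ext h0 h)
    rw [h0, Int.cast_zero, zero_mul, zero_add] at hlog
    have h3 : Real.log (v x) = 0 := (mul_eq_zero.1 hlog).resolve_left (by exact_mod_cast h2)
    have h4 : v x = 1 := by
      rcases Real.log_eq_zero.1 h3 with h | h | h
      · exact absurd h hx0.ne'
      · exact h
      · rw [h] at hx0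
        norm_num at hx0
    rw [h4, pow_zero, pow_one]
  · have h2 : c.2 ≠ 0 := by
      intro h2
      rw [h2, Int.cast_zero, zero_mul, add_zero] at hlog
      rcases mul_eq_zero.1 hlog with h | h
      · exact h0 (by exact_mod_cast h)
      · exact hly.ne' h
    refine ⟨c.2.natAbs, c.1.natAbs, ?_, ?_, ?_⟩
    · have h3 : |(c.1 : ℝ)| * Real.log (v y) = |(c.2 : ℝ)| * Real.log (v x) := by
        have h4 : (c.1 : ℝ) * Real.log (v y) = -(c.2 * Real.log (v x)) := by linarith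
        calc |(c.1 : ℝ)| * Real.log (v y) = |(c.1 : ℝ) * Real.log (v y)| := by rw [abs_mul, abs_of_pos hly]
          _ = |(c.2 : ℝ) * Real.log (v x)| := by rw [h4, abs_neg]
          _ = |(c.2 : ℝ)| * Real.log (v x) := by rw [abs_mul, abs_of_nonneg hlx]
      have h5 : |(c.1 : ℝ)| < |(c.2 : ℝ)| := by
        by_contra hcon
        push Not at hcon
        have hc2 : 0 < |(c.2 : ℝ)| := abs_pos.2 (by exact_mod_cast h2)
        have h6 : |(c.2 : ℝ)| * Real.log (v x) < |(c.1 : ℝ)| * Real.log (v y) := by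
          calc |(c.2 : ℝ)| * Real.log (v x) < |(c.2 : ℝ)| * Real.log (v y) := mul_lt_mul_of_pos_left hlt hc2
            _ ≤ |(c.1 : ℝ)| * Real.log (v y) := mul_le_mul_of_nonneg_right hcon hly.le
        exact absurd h3.symm h6.ne
      have h6 : (|c.1| : ℤ) < |c.2| := by exact_mod_cast h5
      rw [Int.abs_eq_natAbs, Int.abs_eq_natAbs] at h6
      exact_mod_cast h6
    · have := hT c hc
      rw [Int.abs_eq_natAbs] at this
      exact_mod_cast this
    · refine Real.log_injOn_pos (pow_pos hy0 _) (pow_pos hx0 _) ?_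
      rw [Real.log_pow, Real.log_pow]
      have h3 : |(c.1 : ℝ)| * Real.log (v y) = |(c.2 : ℝ)| * Real.log (v x) := by
        have h4 : (c.1 : ℝ) * Real.log (v y) = -(c.2 * Real.log (v x)) := by linarith
        calc |(c.1 : ℝ)| * Real.log (v y) = |(c.1 : ℝ) * Real.log (v y)| := by rw [abs_mul, abs_of_pos hly]
          _ = |(c.2 : ℝ) * Real.log (v x)| := by rw [h4, abs_neg]
          _ = |(c.2 : ℝ)| * Real.log (v x) := by rw [abs_mul, abs_of_nonneg hlx]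
      rw [Nat.cast_natAbs, Nat.cast_natAbs, Int.cast_abs, Int.cast_abs]
      exact h3

/-- the local data of helper20 -/
theorem LocalRel.localPol {p K L : ℕ} {T : Finset (ℤ × ℤ)} {H : (Fin n → ℤ) → (Fin n → ℤ) → MvPolynomial (Fin 2) ℤ}
    {Z : Set (Fin n → ℂ)} (hvp : v (p : ℂ) ≤ 1) (h : LocalRel v p K L T H Z) (hL : 0 < L) (hK : 0 < K)
    (hT : ∀ c ∈ T, |c.2| ≤ (K : ℤ)) : Helper20.PL.LocalPol v p K Z := by
  refine ⟨fun a b ha hb hab => ⟨H a b, h.good a b ha hb hab, fun z hz h1 h2 h3 => ?_⟩, ?_⟩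
  · exact (h.holds a b hab z hz h1 h2 h3).trans (pow_le_of_le_one (v.nonneg _) hvp hL.ne')
  · intro z hz e f hef hf hfe
    refine OnLine.exponents (h.trop z hz e f hef ?_ ?_) hf hfe hK hT
    · intro h0
      rw [h0, map_zero] at hfe
      exact absurd hf (not_le.2 (hfe.trans one_pos))
    · intro h0
      rw [h0, map_zero] at hf
      exact absurd hf (not_le.2 one_pos)

end Pool.Agent.Helper11.AB
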