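import Pool.Agent.Helper11.AB.Defs
import Pool.Agent.Helper22.AA.Irr

/-! # Families with common poles: the monomials are transcendental -/

open MvPolynomial Finset

namespace Pool.Agent.Helper11.AB
open Pool.Agent.Helper20.ZD Pool.Agent.Helper20.DL Pool.Agent.Helper69.DL Pool.Agent.Helper36.DL
  Pool.Agent.Helper69.AA Pool.Agent.Helper22.AA Pool.Agent.Helper22.DL

variable {σ : Type} {n : ℕ} {v : AbsoluteValue ℂ ℝ}

/-- **F1**: a nontrivial monomial in the coordinates of the generic point is transcendental over the ring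
generated by the parameters -/
theorem transc_family [Countable σ] {ss : σ → ℂ} {zs : Fin n → ℂ} (hF : FamilyNZ ss zs) {c : Fin n → ℤ}
    {k : Fin n} (hck : c k ≠ 0) :
    Transcendental (Algebra.adjoin ℤ (Set.range ss)) (∏ i, zs i ^ c i) := by
  classical
  intro halg
  have hz0 : ∀ i, zs i ≠ 0 := fun i h => hF.tr i (by rw [h]; exact isAlgebraic_zero)
  set α := ∏ i, zs i ^ c i with hα
  have hα0 : α ≠ 0 := prod_ne_zero_iff.2 fun i _ => zpow_ne_zero _ (hz0 i)
  obtain ⟨g, hg0, hg⟩ := halg.exists_nonzero_coeff_and_aeval_eq_zero (mem_nonZeroDivisors_of_ne_zero hα0)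
  have hgne : g ≠ 0 := by
    rintro rfl
    exact hg0 (Polynomial.coeff_zero 0)
  obtain ⟨P, hP0, hP⟩ := hF.nz
  -- the coefficients as polynomials in the parameters
  let e := hF.indep.aevalEquiv
  set q : ℕ → MvPolynomial σ ℤ := fun j => e.symm (g.coeff j) with hq
  have hqv : ∀ j, aeval ss (q j) = ((g.coeff j : Algebra.adjoin ℤ (Set.range ss)) : ℂ) := by
    intro j
    have h1 : ((e (q j) : Algebra.adjoin ℤ (Set.range ss)) : ℂ) = aeval ss (q j) :=
      hF.indep.aevalEquiv_apply_coe (q j)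
    rw [← h1, hq]
    simp
  set d := g.natDegree with hd
  have hq0 : q 0 ≠ 0 := fun h => hg0 (by
    have : e (q 0) = 0 := by rw [h, map_zero]
    rw [hq] at this
    simpa using this)
  have hqd : q d ≠ 0 := fun h => by
    have : e (q d) = 0 := by rw [h, map_zero]
    rw [hq] at this
    have h2 : g.coeff d = 0 := by simpa using this
    rw [hd, Polynomial.coeff_natDegree, Polynomial.leadingCoeff_eq_zero] at h2
    exact hgne h2
  -- an integral point
  obtain ⟨s₀, hs₀⟩ : ∃ s₀ : σ → ℤ, eval s₀ (P * q 0 * q d) ≠ 0 := by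
    by_contra hcon
    push Not at hcon
    exact mul_ne_zero (mul_ne_zero hP0 hq0) hqd (MvPolynomial.funext fun x => by rw [hcon x, map_zero])
  set m : ℤ := eval s₀ (P * q 0 * q d) with hm
  obtain ⟨p, hpm, hp⟩ := Nat.exists_infinite_primes (m.natAbs + 1)
  have hpd : ¬ (p : ℤ) ∣ m := fun h => by
    have h1 := Nat.le_of_dvd (Int.natAbs_pos.2 hs₀) (Int.natCast_dvd.1 h)
    omega
  obtain ⟨v, hv, hvp'⟩ := exists_place hp
  have hvp : v (p : ℂ) < 1 := by
    rw [hvp']
    exact inv_lt_one_of_one_lt₀ (by exact_mod_cast hp.one_lt)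
  have hme : m = eval s₀ P * eval s₀ (q 0) * eval s₀ (q d) := by rw [hm, map_mul, map_mul]
  have u1 : v ((eval s₀ P : ℤ) : ℂ) = 1 := v_int_eq_one hv hp hvp fun h => hpd (by
    rw [hme]; exact (h.mul_right _).mul_right _)
  have u2 : v ((eval s₀ (q 0) : ℤ) : ℂ) = 1 := v_int_eq_one hv hp hvp fun h => hpd (by
    rw [hme]; exact (h.mul_left _).mul_right _)
  have u3 : v ((eval s₀ (q d) : ℤ) : ℂ) = 1 := v_int_eq_one hv hp hvp fun h => hpd (by
    rw [hme]; exact h.mul_left _)
  -- the point near `s₀`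
  choose N hN using fun κ => exists_pow_small hv hvp (ss κ)
  obtain ⟨M, hM⟩ := exists_pow_small hv hvp (zs k)
  have hind : AlgebraicIndependent ℤ fun o : Option σ => o.elim (zs k) ss :=
    (AlgebraicIndependent.option_iff).2 ⟨hF.indep, hF.tr k⟩
  have hp0 : (p : ℤ) ≠ 0 := by exact_mod_cast hp.ne_zero
  have hind' := indep_affine hind (fun o => o.elim 0 s₀) (fun o => o.elim ((p : ℤ) ^ M) fun κ => (p : ℤ) ^ N κ)
    (by rintro (_ | κ) <;> exact pow_ne_zero _ hp0)
  obtain ⟨f, hf⟩ := exists_ringEquiv_fam hind hind'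
  set τ : ℂ := (p : ℂ) ^ M * zs k with hτ
  have hpC : (p : ℂ) ≠ 0 := by exact_mod_cast hp.ne_zero
  have hτ0 : τ ≠ 0 := mul_ne_zero (pow_ne_zero _ hpC) (hz0 k)
  have hfk : f (zs k) = τ := by
    have := hf none
    simpa [hτ] using this
  have hfs : ∀ κ, f (ss κ) = (s₀ κ : ℂ) + (p : ℂ) ^ N κ * ss κ := fun κ => by
    have := hf (some κ)
    simpa using this
  have hnear : ∀ κ, v (f (ss κ) - s₀ κ) < 1 := fun κ => by
    rw [hfs, add_sub_cancel_left]
    exact hN κ
  have hnear' := fun F => aeval_near hv (s' := fun κ => f (ss κ)) (s₀ := s₀) hnear F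
  -- the conjugate point is in the fibre
  have hcomp : ∀ (ι : Type) (x : ι → ℂ) (F : MvPolynomial ι ℤ), f (aeval x F) = aeval (fun i => f (x i)) F := by
    intro ι x F
    have := MvPolynomial.map_aeval (R := ℤ) x (f : ℂ →+* ℂ) F
    rw [aeval_def, aeval_def, ← RingEquiv.coe_toRingHom, hom_eval₂]
    congr 1
    exact Subsingleton.elim _ _
  have hfib : (fun i => f (zs i)) ∈ fib ss zs (fun κ => f (ss κ)) := by
    intro F hF0
    have h1 := congrArg f hF0
    rw [hcomp, map_zero] at h1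
    rw [← h1]
    congr 2
    funext o
    rcases o with κ | i <;> rfl
  have hvs : ∀ κ, v (f (ss κ)) ≤ 1 := fun κ => by
    rw [show f (ss κ) = (f (ss κ) - s₀ κ) + s₀ κ by ring]
    exact (hv _ _).trans (max_le (hnear κ).le hv.apply_intCast_le_one)
  have hun : ∀ i, i ≠ k → v (f (zs i)) = 1 := by
    intro i hi
    exact hP v hv _ _ hfib hvs (aeval_near_unit hv hnear u1) k i hi.symm (by rw [hfk]; exact hM)
  -- the value of the monomial
  have e1 : v (f α) = v τ ^ c k := by
    rw [hα, map_prod, map_prod, ← mul_prod_erase univ _ (mem_univ k), Finset.prod_eq_one, mul_one,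
      map_zpow₀, map_zpow₀, hfk]
    intro i hi
    rw [map_zpow₀, map_zpow₀, hun i (ne_of_mem_erase hi), one_zpow]
  -- the equation
  have e2 : ∑ j ∈ range (d + 1), aeval (fun κ => f (ss κ)) (q j) * f α ^ j = 0 := by
    have h1 := congrArg f hg
    rw [Polynomial.aeval_eq_sum_range, map_sum, map_zero] at h1
    rw [← h1]
    refine sum_congr rfl fun j _ => ?_
    rw [Algebra.smul_def, map_mul, map_pow, ← hcomp, hqv]
    rfl
  have e3 : v (f α) = 1 := root_unit hv (fun j => (hnear' (q j)).1) (aeval_near_unit hv hnear u2)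
    (aeval_near_unit hv hnear u3) e2
  rw [e1] at e3
  have h4 : v τ = 1 := (zpow_eq_one_iff_of_ne_zero₀ hck).1 e3 |>.resolve_right fun h => by
    have := v.pos hτ0
    rw [h.1] at this
    linarith
  rw [h4] at hM
  exact lt_irrefl _ hM

/-- **F1** in the form for two exponent vectors -/
theorem transc_pair [Countable σ] {ss : σ → ℂ} {zs : Fin n → ℂ} (hF : FamilyNZ ss zs) {a b : Fin n → ℤ}
    (hab : ∀ s t : ℤ, (∀ i, s * a i + t * b i = 0) → s = 0 ∧ t = 0) (s t : ℤ) (hst : s ≠ 0 ∨ t ≠ 0) :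
    Transcendental (Algebra.adjoin ℤ (Set.range ss)) ((∏ i, zs i ^ a i) ^ s * (∏ i, zs i ^ b i) ^ t) := by
  have hz0 : ∀ i, zs i ≠ 0 := fun i h => hF.tr i (by rw [h]; exact isAlgebraic_zero)
  obtain ⟨k, hk⟩ : ∃ k, s * a k + t * b k ≠ 0 := by
    by_contra hcon
    push Not at hcon
    obtain ⟨h1, h2⟩ := hab s t hcon
    rcases hst with h | h
    · exact h h1
    · exact h h2
  have h1 := transc_family hF (c := fun i => s * a i + t * b i) hk
  have h2 : ∏ i, zs i ^ (s * a i + t * b i) = (∏ i, zs i ^ a i) ^ s * (∏ i, zs i ^ b i) ^ t := by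
    rw [← prod_zpow, ← prod_zpow, ← prod_mul_distrib]
    refine prod_congr rfl fun i _ => ?_
    rw [zpow_add₀ (hz0 i), mul_comm s, mul_comm t, zpow_mul, zpow_mul]
  rwa [h2] at h1

/-- two monomials are algebraically dependent over the ring generated by the parameters -/
theorem exists_dependence {ss : σ → ℂ} {zs : Fin n → ℂ} (hF : FamilyNZ ss zs) (k₀ : Fin n)
    (a b : Fin n → ℤ) : ∃ G : MvPolynomial (Fin 2) (MvPolynomial σ ℤ), G ≠ 0 ∧
      evs ss G (∏ i, zs i ^ a i) (∏ i, zs i ^ b i) = 0 := by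
  set A := Algebra.adjoin ℤ (Set.range ss) with hA
  have hprod : ∀ c : Fin n → ℤ, IsAlgebraic (Algebra.adjoin A {zs k₀}) (∏ i, zs i ^ c i) := by
    intro c
    have : ∏ i, zs i ^ c i ∈ Subalgebra.algebraicClosure (Algebra.adjoin A {zs k₀}) ℂ := by
      refine prod_mem fun i _ => ?_
      have hi : zs i ∈ Subalgebra.algebraicClosure (Algebra.adjoin A {zs k₀}) ℂ :=
        alg_adjoin (hF.alg k₀ i)
      rcases Int.eq_nat_or_neg (c i) with ⟨m, h | h⟩
      · rw [h, zpow_natCast]
        exact pow_mem hi m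
      · rw [h, zpow_neg, zpow_natCast]
        exact (show IsAlgebraic (Algebra.adjoin A {zs k₀}) (zs i ^ m) from pow_mem hi m).inv
    exact this
  obtain ⟨G, hG0, hG⟩ := dep_of_alg' (hprod a) (hprod b)
  let e := hF.indep.aevalEquiv
  refine ⟨map e.symm.toRingHom G, fun h0 => hG0 (map_injective e.symm.toRingHom e.symm.injective
    (by rw [h0, map_zero])), ?_⟩
  unfold evs
  rw [eval₂_map, ← hG, aeval_def]
  congr 1
  ext1 r
  have h1 : ((e (e.symm r) : A) : ℂ) = aeval ss (e.symm r) := hF.indep.aevalEquiv_apply_coe _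
  rw [AlgEquiv.apply_symm_apply] at h1
  exact h1.symm

/-- **F2**: the irreducible relation between two monomials in the coordinates of the generic point -/
theorem exists_rel [Countable σ] {ss : σ → ℂ} {zs : Fin n → ℂ} (hF : FamilyNZ ss zs) {a b : Fin n → ℤ}
    (hab : ∀ s t : ℤ, (∀ i, s * a i + t * b i = 0) → s = 0 ∧ t = 0) :
    ∃ H : MvPolynomial (Fin 2) (MvPolynomial σ ℤ), Irreducible H ∧ 0 < H.degreeOf 0 ∧
      0 < H.degreeOf 1 ∧ evs ss H (∏ i, zs i ^ a i) (∏ i, zs i ^ b i) = 0 ∧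
      ∀ x y : ℂ, evs ss H x y = 0 → (Transcendental (Algebra.adjoin ℤ (Set.range ss)) x ∨
        Transcendental (Algebra.adjoin ℤ (Set.range ss)) y) →
          ∀ G : MvPolynomial (Fin 2) (MvPolynomial σ ℤ), evs ss G x y = 0 → H ∣ G := by
  rcases isEmpty_or_nonempty (Fin n) with hn | ⟨⟨k₀⟩⟩
  · exact absurd (hab 1 0 fun i => hn.elim i).1 one_ne_zero
  have hxt : Transcendental (Algebra.adjoin ℤ (Set.range ss)) (∏ i, zs i ^ a i) := by
    have := transc_pair hF hab 1 0 (Or.inl one_ne_zero)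
    rwa [zpow_one, zpow_zero, mul_one] at this
  have hyt : Transcendental (Algebra.adjoin ℤ (Set.range ss)) (∏ i, zs i ^ b i) := by
    have := transc_pair hF hab 0 1 (Or.inr one_ne_zero)
    rwa [zpow_one, zpow_zero, one_mul] at this
  obtain ⟨G, hG0, hG⟩ := exists_dependence hF k₀ a b
  obtain ⟨H, hH, h0, h1, hxy⟩ := exists_irreducible hF.indep hxt hyt hG0 hG
  exact ⟨H, hH, h0, h1, hxy, fun x y h ht G hG => dvd_of_irreducible hF.indep hH h0 h1 h ht G hG⟩

end Pool.Agent.Helper11.AB
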